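import Pool.Agent.TH133.MZ.DepthMain

/-!
# MP_cbe134_nt: the Broadhurst-Kreimer conjecture, motivic and asymptotic part

Assume given an algebra with the properties of the algebra of motivic multiple zeta values, with
its weight grading and depth filtration. Let `c(k,r)` be the coefficients of the series of Broadhurst
and Kreimer. The following are equivalent.

1. `dim gr^D_r 𝒵_k = c(k,r)` for all `k`, `r` (the Broadhurst-Kreimer conjecture).
2. The same formula holds for motivic multiple zeta values, and for arbitrarily large `k` one has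
   `dim gr^D_r 𝒵_k = c(k,r)` for all `r`.
3. The same formula holds for motivic multiple zeta values, and `limsup dim 𝒵_k / d_k = 1`.
-/

open Module

namespace Pool.Agent.Results.MP_cbe134_nt.MotivicAndAsymptotic

open Pool.Agent.TH133.MZ

/-- **The conjecture of Broadhurst and Kreimer is equivalent to its motivic form together with an
asymptotic statement on the total dimensions.** -/
theorem result {H : Type*} [CommRing H] [Algebra ℚ H] {F : ℕ → ℕ → Submodule ℚ H}
    {per : H →ₐ[ℚ] ℝ} {d : ℕ → ℕ} (hd : IsZagierSeq d) (h : IsDepthModel F per d)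
    {C : PowerSeries (Polynomial ℤ)} (hC : IsBKSeries C) :
    List.TFAE [
      ∀ k r : ℕ, grDim (Fil k) r = bk C k r,
      (∀ k r : ℕ, grDim (F k) r = bk C k r) ∧ ∀ N : ℕ, ∃ k : ℕ, N ≤ k ∧
        ∀ r : ℕ, grDim (Fil k) r = bk C k r,
      (∀ k r : ℕ, grDim (F k) r = bk C k r) ∧ ∀ ε : ℝ, 0 < ε → ∀ N : ℕ, ∃ k : ℕ, N ≤ k ∧
        (1 - ε) * d k ≤ finrank ℚ (Fil k k)] :=
  bk_tfae hd h hC

end Pool.Agent.Results.MP_cbe134_nt.MotivicAndAsymptotic
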